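import Mathlib
import Pool.Agent.W533.K.Defs

/-!
The kernel `2ρ²ρ'²/(ρ²+ρ'²+‖f-f'‖²)` is a Gram kernel.
-/

set_option autoImplicit false

namespace Pool.Agent.W112.UK

open Finset Matrix
open Pool.Agent.W533.K

universe u

/-- A positive semidefinite real matrix is a Gram matrix of vectors in Euclidean space. -/
lemma gram_of_posSemidef {ι : Type u} [Fintype ι] (M : Matrix ι ι ℝ)
    (hM : M.PosSemidef) : ∃ (n : ℕ) (g : ι → E n), ∀ x y, inner ℝ (g x) (g y) = M x y := by
  obtain ⟨m, v, hv⟩ := Matrix.posSemidef_iff_eq_sum_vecMulVec.1 hM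
  refine ⟨m, fun x => WithLp.toLp 2 (fun k => v k x), fun x y => ?_⟩
  rw [EuclideanSpace.inner_eq_star_dotProduct, hv]
  simp only [dotProduct, Matrix.sum_apply, Matrix.vecMulVec_apply, star_trivial, Pi.star_apply]
  refine Finset.sum_congr rfl fun k _ => ?_
  ring

/-- Hadamard powers of a positive semidefinite matrix. -/
lemma posSemidef_pow {ι : Type u} [Fintype ι] (M : Matrix ι ι ℝ) (hM : M.PosSemidef) (k : ℕ) :
    (Matrix.of fun x y => M x y ^ k).PosSemidef := by
  induction k with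
  | zero =>
    have : (Matrix.of fun x y : ι => M x y ^ 0) = Matrix.vecMulVec (fun _ => (1 : ℝ)) (star fun _ => (1 : ℝ)) := by
      ext x y
      simp [Matrix.vecMulVec_apply]
    rw [this]
    exact Matrix.posSemidef_vecMulVec_self_star _
  | succ k ih =>
    have : (Matrix.of fun x y : ι => M x y ^ (k + 1)) = (Matrix.of fun x y => M x y ^ k).hadamard M := by
      ext x y
      simp [pow_succ]
    rw [this]
    exact ih.hadamard hM

/-- `1/(1-⟨u,u'⟩)` -/
lemma posSemidef_geom {ι : Type u} [Fintype ι] (M : Matrix ι ι ℝ) (hM : M.PosSemidef)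
    (h1 : ∀ x y, |M x y| < 1) : (Matrix.of fun x y => (1 - M x y)⁻¹).PosSemidef := by
  have hlim : ∀ x y, HasSum (fun k : ℕ => M x y ^ k) (1 - M x y)⁻¹ := fun x y =>
    hasSum_geometric_of_abs_lt_one (h1 x y)
  refine Matrix.PosSemidef.of_dotProduct_mulVec_nonneg ?_ ?_
  · ext x y
    have : M y x = M x y := by
      have := hM.1.apply x y
      simpa using this
    simp [this]
  · intro v
    have hs : HasSum (fun k : ℕ => star v ⬝ᵥ ((Matrix.of fun x y => M x y ^ k) *ᵥ v))
        (star v ⬝ᵥ ((Matrix.of fun x y => (1 - M x y)⁻¹) *ᵥ v)) := by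
      simp only [dotProduct, mulVec, Matrix.of_apply]
      refine hasSum_sum fun x _ => HasSum.mul_left _ ?_
      refine hasSum_sum fun y _ => HasSum.mul_right _ (hlim x y)
    exact hs.nonneg fun k => (posSemidef_pow M hM k).dotProduct_mulVec_nonneg v

theorem kernel : Kernel.{u} := by
  intro X _ m f ρ hρ
  classical
  have : Fintype X := Fintype.ofFinite X
  set s : X → ℝ := fun x => ρ x ^ 2 + ‖f x‖ ^ 2 with hs
  have hs0 : ∀ x, 0 < s x := fun x => by
    have := hρ x
    simp only [hs]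
    positivity
  -- the Gram matrix of the vectors `u`
  set M : Matrix X X ℝ := Matrix.of fun x y =>
    ((s x - 1) * (s y - 1) + 4 * inner ℝ (f x) (f y)) / ((s x + 1) * (s y + 1)) with hM
  have hMp : M.PosSemidef := by
    have e : M = Matrix.vecMulVec (fun x => (s x - 1) / (s x + 1)) (star fun x => (s x - 1) / (s x + 1)) +
        (Matrix.of fun x y => inner ℝ ((2 / (s x + 1)) • f x) ((2 / (s y + 1)) • f y)) := by
      ext x y
      have h1 := hs0 x
      have h2 := hs0 y
      simp only [hM, Matrix.of_apply, Matrix.add_apply, Matrix.vecMulVec_apply, star_trivial,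
        Pi.star_apply, real_inner_smul_left, real_inner_smul_right]
      field_simp
      ring
    rw [e]
    refine (Matrix.posSemidef_vecMulVec_self_star _).add ?_
    exact Matrix.posSemidef_gram ℝ (fun x => (2 / (s x + 1)) • f x)
  have hM1 : ∀ x y, |M x y| < 1 := by
    intro x y
    have h1 := hs0 x
    have h2 := hs0 y
    have hx : (s x - 1) ^ 2 + 4 * ‖f x‖ ^ 2 < (s x + 1) ^ 2 := by
      have := hρ x
      have h3 : 0 < ρ x ^ 2 := by positivity
      have : s x = ρ x ^ 2 + ‖f x‖ ^ 2 := rfl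
      nlinarith
    have hy : (s y - 1) ^ 2 + 4 * ‖f y‖ ^ 2 < (s y + 1) ^ 2 := by
      have := hρ y
      have h3 : 0 < ρ y ^ 2 := by positivity
      have : s y = ρ y ^ 2 + ‖f y‖ ^ 2 := rfl
      nlinarith
    have hin : |inner ℝ (f x) (f y)| ≤ ‖f x‖ * ‖f y‖ := abs_real_inner_le_norm _ _
    simp only [hM, Matrix.of_apply]
    rw [abs_div, div_lt_one (by positivity), abs_of_pos (a := (s x + 1) * (s y + 1)) (by positivity)]
    have hle : |(s x - 1) * (s y - 1) + 4 * inner ℝ (f x) (f y)| ≤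
        |s x - 1| * |s y - 1| + (2 * ‖f x‖) * (2 * ‖f y‖) := by
      refine (abs_add_le _ _).trans ?_
      rw [abs_mul, abs_mul, abs_of_pos (show (0:ℝ) < 4 by norm_num)]
      nlinarith
    refine lt_of_le_of_lt hle ?_
    have hcs : (|s x - 1| * |s y - 1| + (2 * ‖f x‖) * (2 * ‖f y‖)) ^ 2 ≤
        ((s x - 1) ^ 2 + 4 * ‖f x‖ ^ 2) * ((s y - 1) ^ 2 + 4 * ‖f y‖ ^ 2) := by
      have e1 : (s x - 1) ^ 2 = |s x - 1| ^ 2 := (sq_abs _).symm
      have e2 : (s y - 1) ^ 2 = |s y - 1| ^ 2 := (sq_abs _).symm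
      rw [e1, e2]
      nlinarith [sq_nonneg (|s x - 1| * (2 * ‖f y‖) - |s y - 1| * (2 * ‖f x‖))]
    have hlt : (|s x - 1| * |s y - 1| + (2 * ‖f x‖) * (2 * ‖f y‖)) ^ 2 <
        ((s x + 1) * (s y + 1)) ^ 2 := by
      refine lt_of_le_of_lt hcs ?_
      rw [mul_pow]
      exact mul_lt_mul'' hx hy (by positivity) (by positivity)
    exact lt_of_pow_lt_pow_left₀ 2 (by positivity) hlt
  have hG := posSemidef_geom M hMp hM1
  -- rescale
  set w : X → ℝ := fun x => 2 * ρ x ^ 2 / (s x + 1) with hw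
  have hfin : (Matrix.of fun x y => 2 * ρ x ^ 2 * ρ y ^ 2 /
      (ρ x ^ 2 + ρ y ^ 2 + ‖f x - f y‖ ^ 2) : Matrix X X ℝ).PosSemidef := by
    have e : (Matrix.of fun x y => 2 * ρ x ^ 2 * ρ y ^ 2 /
        (ρ x ^ 2 + ρ y ^ 2 + ‖f x - f y‖ ^ 2) : Matrix X X ℝ) =
        (Matrix.vecMulVec w (star w)).hadamard (Matrix.of fun x y => (1 - M x y)⁻¹) := by
      ext x y
      have h1 := hs0 x
      have h2 := hs0 y
      have h3 : 1 - M x y = 2 * (ρ x ^ 2 + ρ y ^ 2 + ‖f x - f y‖ ^ 2) / ((s x + 1) * (s y + 1)) := by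
        simp only [hM, Matrix.of_apply]
        rw [norm_sub_sq_real, eq_div_iff (by positivity), sub_mul, div_mul_cancel₀ _ (by positivity)]
        simp only [hs]
        ring
      have h4 : 0 < ρ x ^ 2 + ρ y ^ 2 + ‖f x - f y‖ ^ 2 := by
        have := hρ x
        positivity
      simp only [Matrix.of_apply, Matrix.hadamard_apply, Matrix.vecMulVec_apply, star_trivial,
        Pi.star_apply, h3, hw]
      field_simp
    rw [e]
    exact (Matrix.posSemidef_vecMulVec_self_star _).hadamard hG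
  obtain ⟨n, g, hg⟩ := gram_of_posSemidef _ hfin
  exact ⟨n, g, fun x y => by rw [hg]; rfl⟩

end Pool.Agent.W112.UK
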