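import Mathlib
import Pool.Agent.W533.K.Defs

/-!
Kirszbraun's theorem for finite index sets.
-/

set_option autoImplicit false

namespace Pool.Agent.W112.UK

open Finset
open Pool.Agent.W533.K

universe u

/-- variance identity -/
lemma var_id {ι : Type u} [Fintype ι] {n : ℕ} (p : ι → ℝ) (hp : ∑ i, p i = 1) (v : ι → E n) :
    ∑ i, p i * ‖v i‖ ^ 2 - ‖∑ i, p i • v i‖ ^ 2 =
      (1 / 2) * ∑ i, ∑ j, p i * p j * ‖v i - v j‖ ^ 2 := by
  have h1 : ‖∑ i, p i • v i‖ ^ 2 = ∑ i, ∑ j, p i * p j * inner ℝ (v i) (v j) := by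
    rw [← real_inner_self_eq_norm_sq, sum_inner]
    refine Finset.sum_congr rfl fun i _ => ?_
    rw [inner_sum]
    refine Finset.sum_congr rfl fun j _ => ?_
    rw [real_inner_smul_left, real_inner_smul_right]
    ring
  have h2 : ∀ i j, p i * p j * ‖v i - v j‖ ^ 2 =
      p j * (p i * ‖v i‖ ^ 2) - 2 * (p i * p j * inner ℝ (v i) (v j)) +
        p i * (p j * ‖v j‖ ^ 2) := by
    intro i j
    rw [norm_sub_sq_real]
    ring
  have h3 : ∑ i, ∑ j, p i * p j * ‖v i - v j‖ ^ 2 =
      2 * ∑ i, p i * ‖v i‖ ^ 2 - 2 * ∑ i, ∑ j, p i * p j * inner ℝ (v i) (v j) := by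
    simp only [h2, Finset.sum_add_distrib, Finset.sum_sub_distrib]
    have e1 : ∑ i, ∑ j, p j * (p i * ‖v i‖ ^ 2) = ∑ i, p i * ‖v i‖ ^ 2 := by
      refine Finset.sum_congr rfl fun i _ => ?_
      rw [← Finset.sum_mul, hp, one_mul]
    have e2 : ∑ i, ∑ j, p i * (p j * ‖v j‖ ^ 2) = ∑ i, p i * ‖v i‖ ^ 2 := by
      simp only [← Finset.mul_sum]
      rw [← Finset.sum_mul, hp, one_mul]
    have e3 : ∑ i, ∑ j, 2 * (p i * p j * inner ℝ (v i) (v j)) =
        2 * ∑ i, ∑ j, p i * p j * inner ℝ (v i) (v j) := by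
      simp only [← Finset.mul_sum]
    rw [e1, e2, e3]
    ring
  rw [h1, h3]
  ring

/-- one point extension -/
lemma one_point {ι : Type u} [Fintype ι] [Nonempty ι] {m n : ℕ} (A : ι → E m) (b : ι → E n)
    (x : E m) (a : ℝ) (ha : 0 ≤ a) (h : ∀ i j, ‖b i - b j‖ ≤ a * ‖A i - A j‖) :
    ∃ y : E n, ∀ i, ‖y - b i‖ ≤ a * ‖x - A i‖ := by
  classical
  set r : ι → ℝ := fun i => a * ‖x - A i‖ with hr
  set L : (ι → ℝ) → ℝ := fun p => ∑ i, p i * (‖b i‖ ^ 2 - r i ^ 2) - ‖∑ i, p i • b i‖ ^ 2 with hL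
  have hcont : Continuous L := by
    refine Continuous.sub ?_ (Continuous.pow (Continuous.norm ?_) 2)
    · exact continuous_finset_sum _ fun i _ => (continuous_apply i).mul continuous_const
    · exact continuous_finset_sum _ fun i _ => (continuous_apply i).smul continuous_const
  have hne : (stdSimplex ℝ ι).Nonempty :=
    ⟨_, single_mem_stdSimplex ℝ (Classical.arbitrary ι)⟩
  obtain ⟨p, hp, hmax⟩ := (isCompact_stdSimplex ℝ ι).exists_isMaxOn hne hcont.continuousOn
  have hp0 := hp.1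
  have hp1 := hp.2
  set y : E n := ∑ i, p i • b i with hy
  refine ⟨y, fun k => ?_⟩
  -- the dual value is nonpositive
  have hLp : L p ≤ 0 := by
    have e1 : L p = (∑ i, p i * ‖b i‖ ^ 2 - ‖∑ i, p i • b i‖ ^ 2) - ∑ i, p i * r i ^ 2 := by
      simp only [hL, mul_sub, Finset.sum_sub_distrib]
      ring
    have e2 := var_id p hp1 b
    have e3 := var_id p hp1 (fun i => A i - x)
    have e4 : ∑ i, ∑ j, p i * p j * ‖b i - b j‖ ^ 2 ≤
        ∑ i, ∑ j, p i * p j * (a ^ 2 * ‖(A i - x) - (A j - x)‖ ^ 2) := by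
      refine Finset.sum_le_sum fun i _ => Finset.sum_le_sum fun j _ => ?_
      refine mul_le_mul_of_nonneg_left ?_ (mul_nonneg (hp0 i) (hp0 j))
      rw [sub_sub_sub_cancel_right, ← mul_pow]
      exact pow_le_pow_left₀ (norm_nonneg _) (h i j) 2
    have e5 : ∑ i, ∑ j, p i * p j * (a ^ 2 * ‖(A i - x) - (A j - x)‖ ^ 2) =
        a ^ 2 * ∑ i, ∑ j, p i * p j * ‖(A i - x) - (A j - x)‖ ^ 2 := by
      simp only [Finset.mul_sum]
      refine Finset.sum_congr rfl fun i _ => Finset.sum_congr rfl fun j _ => ?_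
      ring
    have e6 : ∑ i, p i * r i ^ 2 = a ^ 2 * ∑ i, p i * ‖A i - x‖ ^ 2 := by
      rw [Finset.mul_sum]
      refine Finset.sum_congr rfl fun i _ => ?_
      simp only [hr]
      rw [norm_sub_rev x (A i)]
      ring
    have e7 : 0 ≤ a ^ 2 * ‖∑ i, p i • (A i - x)‖ ^ 2 := by positivity
    have e8 : a ^ 2 * (∑ i, p i * ‖A i - x‖ ^ 2 - ‖∑ i, p i • (A i - x)‖ ^ 2) =
        a ^ 2 * ((1 / 2) * ∑ i, ∑ j, p i * p j * ‖(A i - x) - (A j - x)‖ ^ 2) := by
      rw [e3]
    rw [e1, e2, e6]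
    rw [e5] at e4
    nlinarith [e4, e7, e8]
  -- first order condition
  have hfo : ‖b k‖ ^ 2 - r k ^ 2 - ∑ i, p i * (‖b i‖ ^ 2 - r i ^ 2) - 2 * inner ℝ y (b k - y) ≤ 0 := by
    have key : ∀ ε : ℝ, 0 < ε → ε ≤ 1 →
        ‖b k‖ ^ 2 - r k ^ 2 - ∑ i, p i * (‖b i‖ ^ 2 - r i ^ 2) - 2 * inner ℝ y (b k - y) ≤
          ε * ‖b k - y‖ ^ 2 := by
      intro ε he he1
      set q : ι → ℝ := fun i => (1 - ε) * p i + ε * (Pi.single k (1 : ℝ) : ι → ℝ) i with hq
      have hqm : q ∈ stdSimplex ℝ ι := by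
        refine ⟨fun i => ?_, ?_⟩
        · have h1 : 0 ≤ (Pi.single k (1 : ℝ) : ι → ℝ) i := (single_mem_stdSimplex ℝ k).1 i
          have h2 := hp0 i
          have : 0 ≤ 1 - ε := by linarith
          simp only [hq]
          positivity
        · simp only [hq, Finset.sum_add_distrib, ← Finset.mul_sum, hp1,
            (single_mem_stdSimplex ℝ k).2]
          ring
      have h1 := hmax hqm
      have s1 : ∑ i, q i * (‖b i‖ ^ 2 - r i ^ 2) =
          (1 - ε) * ∑ i, p i * (‖b i‖ ^ 2 - r i ^ 2) + ε * (‖b k‖ ^ 2 - r k ^ 2) := by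
        have : ∀ i, q i * (‖b i‖ ^ 2 - r i ^ 2) = (1 - ε) * (p i * (‖b i‖ ^ 2 - r i ^ 2)) +
            ε * ((Pi.single k (1 : ℝ) : ι → ℝ) i * (‖b i‖ ^ 2 - r i ^ 2)) := by
          intro i; simp only [hq]; ring
        simp only [this, Finset.sum_add_distrib, ← Finset.mul_sum]
        congr 2
        rw [Finset.sum_eq_single k]
        · simp
        · intro i _ hi
          rw [Pi.single_eq_of_ne hi, zero_mul]
        · intro hk; exact absurd (Finset.mem_univ k) hk
      have s2 : ∑ i, q i • b i = y + ε • (b k - y) := by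
        have : ∀ i, q i • b i = (1 - ε) • (p i • b i) +
            ε • ((Pi.single k (1 : ℝ) : ι → ℝ) i • b i) := by
          intro i; simp only [hq]; rw [add_smul, smul_smul, smul_smul]
        simp only [this, Finset.sum_add_distrib, ← Finset.smul_sum]
        rw [Finset.sum_eq_single k (f := fun i => (Pi.single k (1 : ℝ) : ι → ℝ) i • b i)]
        · rw [Pi.single_eq_same, one_smul, ← hy]
          module
        · intro i _ hi
          rw [Pi.single_eq_of_ne hi, zero_smul]
        · intro hk; exact absurd (Finset.mem_univ k) hk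
      have s3 : ‖y + ε • (b k - y)‖ ^ 2 = ‖y‖ ^ 2 + 2 * ε * inner ℝ y (b k - y) +
          ε ^ 2 * ‖b k - y‖ ^ 2 := by
        rw [norm_add_sq_real, real_inner_smul_right, norm_smul, mul_pow, Real.norm_eq_abs, sq_abs]
        ring
      simp only [hL, Set.mem_setOf_eq] at h1
      rw [s1, s2, s3, ← hy] at h1
      have h2 : ε * (‖b k‖ ^ 2 - r k ^ 2 - ∑ i, p i * (‖b i‖ ^ 2 - r i ^ 2) -
          2 * inner ℝ y (b k - y)) ≤ ε * (ε * ‖b k - y‖ ^ 2) := by
        nlinarith [h1]
      exact le_of_mul_le_mul_left h2 he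
    by_contra hcon
    push Not at hcon
    set c := ‖b k‖ ^ 2 - r k ^ 2 - ∑ i, p i * (‖b i‖ ^ 2 - r i ^ 2) - 2 * inner ℝ y (b k - y) with hc
    set d := ‖b k - y‖ ^ 2 with hd
    have hd0 : 0 ≤ d := by positivity
    have hε : 0 < min 1 (c / (2 * (d + 1))) := lt_min one_pos (by positivity)
    have h3 := key _ hε (min_le_left _ _)
    have h4 : min 1 (c / (2 * (d + 1))) * d ≤ c / (2 * (d + 1)) * d :=
      mul_le_mul_of_nonneg_right (min_le_right _ _) hd0
    have h5 : c / (2 * (d + 1)) * d < c := by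
      rw [div_mul_eq_mul_div, div_lt_iff₀ (by positivity)]
      nlinarith
    linarith
  have hfin : ‖y - b k‖ ^ 2 ≤ r k ^ 2 := by
    have e1 : L p = ∑ i, p i * (‖b i‖ ^ 2 - r i ^ 2) - ‖y‖ ^ 2 := rfl
    rw [e1] at hLp
    rw [inner_sub_right, real_inner_self_eq_norm_sq] at hfo
    rw [norm_sub_sq_real]
    linarith
  have hrk : 0 ≤ r k := by simp only [hr]; positivity
  exact abs_le_of_sq_le_sq' hfin hrk |>.2

theorem kirsz : Kirsz.{u} := by
  intro I _ m n S F g a ha hS
  classical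
  have key : ∀ T : Finset I, ∃ G : I → E n, (∀ i ∈ S, G i = g i) ∧
      ∀ i ∈ S ∪ (T : Set I), ∀ j ∈ S ∪ (T : Set I), ‖G i - G j‖ ≤ a * ‖F i - F j‖ := by
    intro T
    induction T using Finset.induction_on with
    | empty => exact ⟨g, fun _ _ => rfl, by simpa using hS⟩
    | insert k T hk ih =>
      obtain ⟨G, hG, hT⟩ := ih
      by_cases hmem : k ∈ S ∪ (T : Set I)
      · refine ⟨G, hG, ?_⟩
        have : S ∪ ((insert k T : Finset I) : Set I) = S ∪ (T : Set I) := by
          rw [Finset.coe_insert, Set.union_insert, Set.insert_eq_of_mem hmem]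
        rw [this]
        exact hT
      · have hun : S ∪ ((insert k T : Finset I) : Set I) = insert k (S ∪ (T : Set I)) := by
          rw [Finset.coe_insert, Set.union_insert]
        have hex : ∃ y : E n, ∀ i ∈ S ∪ (T : Set I), ‖y - G i‖ ≤ a * ‖F k - F i‖ := by
          rcases (S ∪ (T : Set I)).eq_empty_or_nonempty with he | hne
          · exact ⟨0, by rw [he]; simp⟩
          · haveI : Nonempty ↥(S ∪ (T : Set I)) := hne.to_subtype
            haveI : Fintype ↥(S ∪ (T : Set I)) := Fintype.ofFinite _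
            obtain ⟨y, hy⟩ := one_point (fun i : ↥(S ∪ (T : Set I)) => F i)
              (fun i => G i) (F k) a ha (fun i j => hT i i.2 j j.2)
            exact ⟨y, fun i hi => hy ⟨i, hi⟩⟩
        obtain ⟨y, hy⟩ := hex
        refine ⟨Function.update G k y, fun i hi => ?_, ?_⟩
        · have : i ≠ k := by
            rintro rfl
            exact hmem (Or.inl hi)
          rw [Function.update_of_ne this, hG i hi]
        · rw [hun]
          intro i hi j hj
          by_cases hik : i = k <;> by_cases hjk : j = k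
          · subst hik; subst hjk
            simp
          · subst hik
            rw [Function.update_self, Function.update_of_ne hjk]
            exact hy j (hj.resolve_left hjk)
          · subst hjk
            rw [Function.update_self, Function.update_of_ne hik, norm_sub_rev, norm_sub_rev (F i)]
            exact hy i (hi.resolve_left hik)
          · rw [Function.update_of_ne hik, Function.update_of_ne hjk]
            exact hT i (hi.resolve_left hik) j (hj.resolve_left hjk)
  haveI : Fintype I := Fintype.ofFinite I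
  obtain ⟨G, h1, h2⟩ := key Finset.univ
  exact ⟨G, h1, fun i j => h2 i (Or.inr (by simp)) j (Or.inr (by simp))⟩

end Pool.Agent.W112.UK
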