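import Mathlib
import Pool.Agent.W533.K.Defs

/-!
Transfer of a Lipschitz map from an arbitrary set to a well embeddable set.
-/

set_option autoImplicit false

namespace Pool.Agent.W112.UK

open Finset
open Pool.Agent.W533.K

universe u

/-- nets adapted to a nonnegative function `R` -/
lemma exists_net {X : Type u} [MetricSpace X] (R : X → ℝ) (hR : ∀ x, 0 ≤ R x) (K : ℝ)
    (hK : 0 ≤ K) (s : Finset X) : ∃ N : Set X, N ⊆ (s : Set X) ∧
      (∀ b ∈ N, ∀ b' ∈ N, b ≠ b' → K * R b < dist b b') ∧
      ∀ b ∈ s, ∃ b' ∈ N, R b' ≤ R b ∧ dist b b' ≤ K * R b := by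
  classical
  induction s using Finset.induction_on_max_value R with
  | empty => exact ⟨∅, by simp, by simp, by simp⟩
  | insert b s hb hmax ih =>
    obtain ⟨N, hN, h1, h2⟩ := ih
    by_cases hex : ∃ b' ∈ N, dist b b' ≤ K * R b
    · obtain ⟨b', hb', hd⟩ := hex
      refine ⟨N, hN.trans (by simp), h1, fun c hc => ?_⟩
      rcases Finset.mem_insert.1 hc with rfl | hc
      · exact ⟨b', hb', hmax b' (by exact_mod_cast hN hb'), hd⟩
      · exact h2 c hc
    · push Not at hex
      refine ⟨insert b N, ?_, ?_, fun c hc => ?_⟩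
      · rw [Finset.coe_insert]
        exact Set.insert_subset_insert hN
      · intro c hc c' hc' hne
        by_cases ec : c = b <;> by_cases ec' : c' = b
        · exact absurd (ec.trans ec'.symm) hne
        · have m' : c' ∈ N := (Set.mem_insert_iff.1 hc').resolve_left ec'
          rw [ec]
          exact hex c' m'
        · have m : c ∈ N := (Set.mem_insert_iff.1 hc).resolve_left ec
          have h3 := hmax c (by exact_mod_cast hN m)
          rw [ec', dist_comm]
          exact lt_of_le_of_lt (mul_le_mul_of_nonneg_left h3 hK) (hex c m)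
        · have m' : c' ∈ N := (Set.mem_insert_iff.1 hc').resolve_left ec'
          have m : c ∈ N := (Set.mem_insert_iff.1 hc).resolve_left ec
          exact h1 c m c' m' hne
      · rcases Finset.mem_insert.1 hc with rfl | hc
        · exact ⟨c, Set.mem_insert _ _, le_rfl, by rw [dist_self]; exact mul_nonneg hK (hR c)⟩
        · obtain ⟨b', hb', h3⟩ := h2 c hc
          exact ⟨b', Set.mem_insert_of_mem _ hb', h3⟩

theorem transfer (hK : Kirsz.{u}) : Transfer.{u} := by
  intro X _ _ D K τ hD hK2 hτ A Y hA hemb n lam h hlam hh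
  classical
  obtain ⟨m, f, hf⟩ := hemb
  have hKpos : 0 < K := by linarith
  set q : ℝ := 1 - 2 / K with hq
  have hq0 : 0 < q := by
    rw [hq, sub_pos, div_lt_one hKpos]; exact hK2
  have hτ0 : 0 < τ := by
    by_contra hcon
    push Not at hcon
    nlinarith
  set R : X → ℝ := fun b => Metric.infDist b A with hRdef
  have hR0 : ∀ b, 0 ≤ R b := fun b => Metric.infDist_nonneg
  have hnear : ∀ b, ∃ a ∈ A, R b = dist b a := fun b =>
    (A.toFinite.isCompact).exists_infDist_eq_dist hA b
  choose α hαA hα using hnear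
  obtain ⟨N, hN, h1, h2⟩ := exists_net R hR0 K hKpos.le (Y.toFinite.toFinset)
  have hNY : ∀ b ∈ N, b ∈ Y := fun b hb => by simpa using hN hb
  have hYs : ∀ b ∈ Y, ∃ b' ∈ N, R b' ≤ R b ∧ dist b b' ≤ K * R b := fun b hb =>
    h2 b (by simpa using hb)
  set lam' := lam / q with hlam'
  have hlam'0 : 0 ≤ lam' := div_nonneg hlam hq0.le
  have hlamD : lam' * D ≤ τ * lam := by
    rw [hlam', div_mul_eq_mul_div, div_le_iff₀ hq0]
    nlinarith
  obtain ⟨G, hG1, hG2⟩ := hK (X ⊕ X) inferInstance m n (Sum.inl '' N)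
    (Sum.elim (fun b => f (α b)) f) (Sum.elim h h) lam' hlam'0 (by
      rintro _ ⟨b, hb, rfl⟩ _ ⟨b', hb', rfl⟩
      simp only [Sum.elim_inl]
      by_cases hbb : b = b'
      · subst hbb; simp
      · have e1 := h1 b hb b' hb' hbb
        have e2 := h1 b' hb' b hb (Ne.symm hbb)
        rw [dist_comm] at e2
        have e3 := hh b (hNY b hb) b' (hNY b' hb')
        have e4 := (hf _ (hαA b) _ (hαA b')).1
        have e5 : dist b b' ≤ dist b (α b) + dist (α b) (α b') + dist (α b') b' :=
          dist_triangle4 _ _ _ _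
        rw [← hα b, dist_comm (α b') b', ← hα b'] at e5
        have e6 : q * dist b b' ≤ dist (α b) (α b') := by
          have k1 : R b ≤ dist b b' / K := by rw [le_div_iff₀ hKpos]; linarith
          have k2 : R b' ≤ dist b b' / K := by rw [le_div_iff₀ hKpos]; linarith
          have k3 : q * dist b b' = dist b b' - 2 * (dist b b' / K) := by
            rw [hq]; ring
          linarith
        rw [hlam', div_mul_eq_mul_div, le_div_iff₀ hq0]
        nlinarith)
  refine ⟨fun x => G (Sum.inr x), fun x hx y hy => ?_, fun a ha b hb => ?_⟩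
  · have e1 := hG2 (Sum.inr x) (Sum.inr y)
    simp only [Sum.elim_inr] at e1
    have e2 := (hf x hx y hy).2
    calc ‖G (Sum.inr x) - G (Sum.inr y)‖ ≤ lam' * ‖f x - f y‖ := e1
      _ ≤ lam' * (D * dist x y) := mul_le_mul_of_nonneg_left e2 hlam'0
      _ = (lam' * D) * dist x y := by ring
      _ ≤ τ * lam * dist x y := mul_le_mul_of_nonneg_right hlamD dist_nonneg
  · obtain ⟨b', hb', hRb, hdb⟩ := hYs b hb
    have e1 := hG2 (Sum.inr a) (Sum.inl b')
    simp only [Sum.elim_inr, Sum.elim_inl] at e1
    have e0 : G (Sum.inl b') = h b' := hG1 _ ⟨b', hb', rfl⟩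
    have e2 := (hf a ha _ (hαA b')).2
    have hRab : R b ≤ dist a b := by
      rw [dist_comm]; exact Metric.infDist_le_dist_of_mem ha
    have hd1 : dist a (α b') ≤ (K + 2) * dist a b := by
      have e5 : dist a (α b') ≤ dist a b + dist b b' + dist b' (α b') := dist_triangle4 _ _ _ _
      rw [← hα b'] at e5
      nlinarith
    have e3 : ‖G (Sum.inr a) - G (Sum.inl b')‖ ≤ τ * lam * ((K + 2) * dist a b) := by
      calc ‖G (Sum.inr a) - G (Sum.inl b')‖ ≤ lam' * ‖f a - f (α b')‖ := e1
        _ ≤ lam' * (D * dist a (α b')) := mul_le_mul_of_nonneg_left e2 hlam'0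
        _ = (lam' * D) * dist a (α b') := by ring
        _ ≤ (τ * lam) * dist a (α b') := mul_le_mul_of_nonneg_right hlamD dist_nonneg
        _ ≤ τ * lam * ((K + 2) * dist a b) :=
          mul_le_mul_of_nonneg_left hd1 (mul_nonneg hτ0.le hlam)
    have e4 : ‖h b' - h b‖ ≤ lam * (K * dist a b) := by
      calc ‖h b' - h b‖ ≤ lam * dist b' b := hh b' (hNY b' hb') b hb
        _ ≤ lam * (K * dist a b) := by
          refine mul_le_mul_of_nonneg_left ?_ hlam
          rw [dist_comm]
          exact hdb.trans (mul_le_mul_of_nonneg_left hRab hKpos.le)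
    calc ‖G (Sum.inr a) - h b‖ = ‖(G (Sum.inr a) - G (Sum.inl b')) + (h b' - h b)‖ := by
          rw [e0]; congr 1; abel
      _ ≤ ‖G (Sum.inr a) - G (Sum.inl b')‖ + ‖h b' - h b‖ := norm_add_le _ _
      _ ≤ τ * lam * ((K + 2) * dist a b) + lam * (K * dist a b) := add_le_add e3 e4
      _ = (τ * (K + 2) + K) * lam * dist a b := by ring

end Pool.Agent.W112.UK
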