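import Mathlib
import Pool.Agent.W533.K.Defs

/-!
The maps `g` on the pieces.
-/

set_option autoImplicit false

namespace Pool.Agent.W112.UK

open Finset
open Pool.Agent.W533.K

universe u

theorem kpiece (h : Kernel.{u}) : KPiece.{u} := by
  intro X _ _ D A ρ hD1 hD2 hA hρ hlip
  obtain ⟨m, f, hf⟩ := hA
  obtain ⟨n, g, hg⟩ := h X inferInstance m f ρ hρ
  have hnorm : ∀ x, ‖g x‖ ^ 2 = ρ x ^ 2 := by
    intro x
    have h0 := hρ x
    rw [← real_inner_self_eq_norm_sq, hg, sub_self, norm_zero]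
    field_simp
    ring
  refine ⟨n, g, fun x => ?_, fun x hx y hy => ?_, fun x hx y hy => ?_⟩
  · have h0 := hρ x
    exact (pow_left_inj₀ (norm_nonneg _) h0.le two_ne_zero).1 (hnorm x)
  · have hx0 := hρ x
    have hy0 := hρ y
    obtain ⟨h1, h2⟩ := hf x hx y hy
    have hd : 0 ≤ dist x y := dist_nonneg
    have hF : ‖f x - f y‖ ^ 2 ≤ 25 / 16 * dist x y ^ 2 := by
      have : ‖f x - f y‖ ≤ 5 / 4 * dist x y := h2.trans (mul_le_mul_of_nonneg_right hD2 hd)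
      have := pow_le_pow_left₀ (norm_nonneg _) this 2
      nlinarith
    have hr : (ρ x - ρ y) ^ 2 ≤ dist x y ^ 2 := by
      rw [← sq_abs]
      exact pow_le_pow_left₀ (abs_nonneg _) (hlip x y) 2
    have key : ‖g x - g y‖ ^ 2 ≤ 2 * (ρ x - ρ y) ^ 2 + ‖f x - f y‖ ^ 2 := by
      rw [norm_sub_sq_real, hg, hnorm, hnorm]
      set F := ‖f x - f y‖ ^ 2 with hFdef
      have hF0 : 0 ≤ F := by positivity
      have hden : 0 < ρ x ^ 2 + ρ y ^ 2 + F := by positivity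
      rw [← sub_nonneg]
      have e : 2 * (ρ x - ρ y) ^ 2 + F - (ρ x ^ 2 - 2 * (2 * ρ x ^ 2 * ρ y ^ 2 / (ρ x ^ 2 + ρ y ^ 2 + F)) + ρ y ^ 2) =
          ((2 * (ρ x - ρ y) ^ 2 + F - ρ x ^ 2 - ρ y ^ 2) * (ρ x ^ 2 + ρ y ^ 2 + F) + 4 * ρ x ^ 2 * ρ y ^ 2) /
            (ρ x ^ 2 + ρ y ^ 2 + F) := by
        field_simp
        ring
      rw [e]
      refine div_nonneg ?_ hden.le
      have e2 : (2 * (ρ x - ρ y) ^ 2 + F - ρ x ^ 2 - ρ y ^ 2) * (ρ x ^ 2 + ρ y ^ 2 + F) + 4 * ρ x ^ 2 * ρ y ^ 2 =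
          (ρ x - ρ y) ^ 4 + F * (F + 2 * (ρ x - ρ y) ^ 2) := by ring
      rw [e2]
      positivity
    have h4 : ‖g x - g y‖ ^ 2 ≤ (2 * dist x y) ^ 2 := by nlinarith
    exact (pow_le_pow_iff_left₀ (norm_nonneg _) (by positivity) two_ne_zero).1 h4
  · have hx0 := hρ x
    have hy0 := hρ y
    obtain ⟨h1, h2⟩ := hf x hx y hy
    have hd : 0 ≤ dist x y := dist_nonneg
    rw [hg]
    refine div_le_div_of_nonneg_left (by positivity) (by positivity) ?_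
    have := pow_le_pow_left₀ hd h1 2
    linarith

end Pool.Agent.W112.UK
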